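import Pool.Agent.Q189.SP.Direct

/-!
# The relations between different weights, counted at almost all integers

`Z j`: the span of the multiple zeta values of weight `j`; `V n j`: the span of the products `Li_s(1 - 1/n) Li_t(1/n)` of multiple
polylogarithms with `|s| + |t| = j`. The defect of a sequence of spaces `G` up to `p` is
`∑_{j ≤ p} dim G_j - dim (G_0 + ⋯ + G_p)`, the dimension of the space of the relations `g_0 + ⋯ + g_p = 0`, `g_j ∈ G_j`; it
vanishes if and only if the sum is direct.

For each `N`, for all but `C T^(1-c)` of the `n ≤ T`: the defect of `V n` up to `p` is `∑_{k ≤ p} 2^k` times the defect of `Z` up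
to `p - k`, for all `p ≤ N`. So the relations between the values at `n` in different weights are those between multiple zeta
values, multiplied by the `2^k` products `log(1/n)^a Li_t(1/n)` of weight `k`.

The definitions and the proof are in `Pool.Agent.Q189.SP.Direct`.
-/

set_option autoImplicit false

open Module

namespace Pool.Agent.Results.MP_4d52ff_nt.DefectsAtIntegers

open Pool.Agent.Q189.SP.Direct (Z V Direct defect)

/-- (1) the subtraction in the defect is not truncated, and the defect vanishes exactly in the direct case; (2) the formula for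
the defects at almost all `n`. -/
theorem result :
    (∀ G : ℕ → Submodule ℚ ℝ, (∀ j, FiniteDimensional ℚ (G j)) → ∀ p : ℕ,
      (defect G p : ℤ) = ∑ j ∈ Finset.range (p + 1), (finrank ℚ (G j) : ℤ) -
        finrank ℚ ((Finset.range (p + 1)).sup G : Submodule ℚ ℝ) ∧
      (defect G p = 0 ↔ Direct G p)) ∧
    (∀ N : ℕ, ∃ C c : ℝ, 0 < c ∧ ∀ T : ℕ, 1 ≤ T →
      (({n : ℕ | 3 ≤ n ∧ n ≤ T ∧ ¬ ∀ p ≤ N, defect (V n) p =
        ∑ k ∈ Finset.range (p + 1), 2 ^ k * defect Z (p - k)}.ncard : ℕ) : ℝ) ≤ C * (T : ℝ) ^ (1 - c)) :=
  Pool.Agent.Q189.SP.Direct.joined.2.2.2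

end Pool.Agent.Results.MP_4d52ff_nt.DefectsAtIntegers
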