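import Pool.Agent.Q189.SP.Direct

/-!
# The weight spaces of multiple zeta values are independent if and only if one integer shows it in each weight

`Z j`: the span of the multiple zeta values of weight `j`; `V n j`: the span of the products `Li_s(1 - 1/n) Li_t(1/n)` of multiple
polylogarithms with `|s| + |t| = j`.

The sum `Z 0 + ⋯ + Z p` is direct if and only if the sum `V n 0 + ⋯ + V n p` is direct for ONE `n ≥ 2`. So the sum of all `Z j`
is direct if and only if for infinitely many `p` there is one `n ≥ 2` with `V n 0 + ⋯ + V n p` direct.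

The definitions and the proof are in `Pool.Agent.Q189.SP.Direct`. The exact count of the relations between different weights
at almost all integers is the companion `DefectsAtIntegers`.
-/

set_option autoImplicit false

open Module

namespace Pool.Agent.Results.MP_4d52ff_nt.DirectFromOneInteger

open Pool.Agent.Q189.SP.Direct (Z V Direct)

/-- (1) directness at any one `n` gives directness for the multiple zeta values; (2) the criterion up to weight `p`; (3) the
criterion for Q1. -/
theorem result :
    (∀ p n : ℕ, 2 ≤ n → Direct (V n) p → Direct Z p) ∧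
    (∀ p : ℕ, Direct Z p ↔ ∃ n : ℕ, 2 ≤ n ∧ Direct (V n) p) ∧
    ((∀ p, Direct Z p) ↔ ∀ p₀ : ℕ, ∃ p n : ℕ, p₀ ≤ p ∧ 2 ≤ n ∧ Direct (V n) p) := by
  obtain ⟨h1, h2, h3, -, -⟩ := Pool.Agent.Q189.SP.Direct.joined
  refine ⟨h1, fun p => ⟨fun h => ?_, fun ⟨n, hn, h⟩ => h1 p n hn h⟩, h3⟩
  obtain ⟨C, c, hc, hf⟩ := h2 p h
  obtain ⟨n, hn, hn'⟩ := Pool.Agent.Q189.Z3.exists_of_few hc hf
  exact ⟨n, by omega, not_not.1 hn'⟩

end Pool.Agent.Results.MP_4d52ff_nt.DirectFromOneInteger
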