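import Pool.Agent.Q138.PS.VX
import Pool.Agent.Q138.PS.VY
import Pool.Agent.Q138.AI.R4d52ff

/-!
# Directness of the weight spaces and values of multiple polylogarithms at `1/t` and `1 - 1/t`, `t` close to `α P(n)`

`Li_s(x) = ∑_{n_1 > … > n_k ≥ 1} x^{n_1} / (n_1^{s_1} ⋯ n_k^{s_k})` (weight `|s| = s_1 + ⋯ + s_k`), `Z_j` is the `ℚ`-span of
the multiple zeta values of weight `j`, and `V_j(t)` the `ℚ`-span of the products `Li_s(1 - 1/t) Li_r(1/t)` with `|s| + |r| = j`.
The defect `δ_p(G)` of a sequence of spaces `G` is the dimension of the space of the relations `g_0 + ⋯ + g_p = 0`, `g_j ∈ G_j`.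

Let `q ≥ 2`. Outside a set of real numbers of Hausdorff dimension at most `q / (q + 1 / (q 2 ^ (q - 1)))` (that is `8 / 9` for
`q = 2`) every `α > 0` has the following property. There is `η > 0` such that the properties `A` of integers named below are
RARE along `α P(n)`: there is `κ > 0` such that for all large `N` and ALL integral polynomials `P` of degree `q` with positive
leading coefficient and coefficients of size at most `N ^ η`, for all but `N ^ (1 - κ)` of the `n ≤ N`, NO integer `t ≥ b` (`b = 2`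
or `3`) with `|t - ⌊α P(n)⌋| ≤ N ^ κ` has the property `A`.

* `δ_p(V(t)) ≠ ∑_{k ≤ p} 2^k δ_{p-k}(Z)` for some `p ≤ N` is rare, for each `N`;
* `Z_0 + ⋯ + Z_p` is direct if and only if it is rare that `V_0(t) + ⋯ + V_p(t)` is not direct;
* the sum of all `Z_j` is direct if and only if this is rare for infinitely many `p`.
-/

set_option autoImplicit false

namespace Pool.Agent.Results.MP_4d52ff_nt.DirectnessAlongRealMultiples

open Filter Module Pool.Agent.Q138.PS Pool.Agent.Q138.AI.R4d52ff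

/-- **Theorem.** -/
theorem result (q : ℕ) (hq : 2 ≤ q) :
    ∃ E : Set ℝ, dimH E ≤ ENNReal.ofReal (q / (q + 1 / ((q : ℝ) * 2 ^ (q - 1)))) ∧ ∀ α : ℝ, 0 < α → α ∉ E →
      ∃ η : ℝ, 0 < η ∧
      (∀ N : ℕ, Rare q α η 3 fun n =>
        ¬ ∀ p ≤ N, defect (V n) p = ∑ k ∈ Finset.range (p + 1), 2 ^ k * defect Z (p - k)) ∧
      (∀ p : ℕ, Direct Z p ↔ Rare q α η 3 fun n => ¬ Direct (V n) p) ∧
      ((∀ p, Direct Z p) ↔ ∀ p₀ : ℕ, ∃ p, p₀ ≤ p ∧ Rare q α η 3 fun n => ¬ Direct (V n) p) := by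
  obtain ⟨hd1, hd2, hd3, -, hfew⟩ := Pool.Agent.Q138.AI.R4d52ff.result
  obtain ⟨E, hE, hg⟩ := rare_ae (ι := ℕ ⊕ ℕ) q hq (Sum.elim (fun N n => ¬ ∀ p ≤ N, defect (V n) p =
    ∑ k ∈ Finset.range (p + 1), 2 ^ k * defect Z (p - k)) (fun p n => ¬ Direct (V n) p))
  refine ⟨E, hE, fun α hα hαE => ?_⟩
  obtain ⟨η, hη, h1⟩ := hg α hα hαE
  have key : ∀ p : ℕ, Direct Z p ↔ Rare q α η 3 fun n => ¬ Direct (V n) p := by
    intro p
    constructor
    · intro h
      exact h1 (Sum.inr p) 3 (hd2 p h)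
    · intro h
      obtain ⟨n, hn, hn'⟩ := h.exists_not hη
      exact hd1 p n (by omega) (not_not.1 hn')
  refine ⟨η, hη, fun N => h1 (Sum.inl N) 3 (hfew N), key, ?_⟩
  constructor
  · intro h p₀
    exact ⟨p₀, le_rfl, (key p₀).1 (h p₀)⟩
  · intro h
    refine hd3.2 fun p₀ => ?_
    obtain ⟨p, hp, hR⟩ := h p₀
    obtain ⟨n, hn, hn'⟩ := hR.exists_not hη
    exact ⟨p, n, hp, by omega, not_not.1 hn'⟩

end Pool.Agent.Results.MP_4d52ff_nt.DirectnessAlongRealMultiples
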