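import Pool.Agent.Q187.ZD.Window

/-!
# Directness of the sum of the weight spaces and dimensions

Unconditional results about the spaces `Z_j` of real multiple zeta values of weight `j`.

1. If `Z_0 + ... + Z_p` is not direct then, for all `N ≥ p`, the dimension of `Z_0 + ... + Z_N` is
at most the sum of the dimensions of the last `p` spaces `Z_(N-p+1), ..., Z_N`.
2. So all these sums are direct as soon as for every `p` this fails for one `N`.
3. They are direct if and only if `dim (Z_0 + ... + Z_N)` is asymptotically equal to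
`dim Z_0 + ... + dim Z_N`.
4. `Z_0 + ... + Z_p` is direct if for one `N ≥ p` the sum of the dimensions of
`Z_(N-p+1), ..., Z_N` is at most `2 N / 3`.
-/

set_option autoImplicit false

open Module

namespace Pool.Agent.Results.MP_4d52ff_nt.DirectnessFromDimensions

/-- The `ℚ`-span of the multiple zeta values of weight `j`. -/
noncomputable def Z (j : ℕ) : Submodule ℚ ℝ :=
  Submodule.span ℚ
    {x : ℝ | ∃ t : ℕ, ∃ k : Fin t → ℕ,
      (∀ i, 1 ≤ k i) ∧ (∀ h : 0 < t, 2 ≤ k ⟨0, h⟩) ∧ (∑ i, k i) = j ∧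
      x = ∑' n : {n : Fin t → ℕ // StrictAnti n ∧ ∀ i, 1 ≤ n i},
            ∏ i, (((n.1 i : ℕ) : ℝ) ^ (k i))⁻¹}

/-- The sum `Z_0 + ... + Z_p` is direct. -/
def IsDirect (p : ℕ) : Prop :=
  ∀ z : ℕ → ℝ, (∀ j ≤ p, z j ∈ Z j) → (∑ j ∈ Finset.range (p + 1), z j) = 0 → ∀ j ≤ p, z j = 0

/-- The space `Z_0 + ... + Z_N`. -/
noncomputable def total (N : ℕ) : Submodule ℚ ℝ := (Finset.range (N + 1)).sup Z

/-- `dim Z_0 + ... + dim Z_N` -/
noncomputable def D (N : ℕ) : ℕ := ∑ j ∈ Finset.range (N + 1), finrank ℚ (Z j)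

theorem result :
    (∀ p, ¬ IsDirect p → ∀ N, p ≤ N → finrank ℚ (total N) + D (N - p) ≤ D N) ∧
    ((∀ p, IsDirect p) ↔ ∀ p, ∃ N, p ≤ N ∧ D N < finrank ℚ (total N) + D (N - p)) ∧
    ((∀ p, IsDirect p) ↔ Filter.Tendsto (fun N => (finrank ℚ (total N) : ℝ) / D N)
      Filter.atTop (nhds 1)) ∧
    (∀ p N, p ≤ N → ∑ j ∈ Finset.Ioc (N - p) N, finrank ℚ (Z j) ≤ 2 * N / 3 → IsDirect p) :=
  ⟨fun _ hp _ hN => Pool.Agent.Q187.ZD.drop_real hN hp, Pool.Agent.Q187.ZD.tfae_real.1,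
    Pool.Agent.Q187.ZD.tfae_real.2, fun _ _ hp h => Pool.Agent.Q187.ZD.dir_of_window hp h⟩

end Pool.Agent.Results.MP_4d52ff_nt.DirectnessFromDimensions
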